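import Mathlib
import Pool.Agent.Y846.TC.Gadget

/-!
# Terminal-comprising ambiguity can be avoided exactly when two letters are absent

For an arbitrary alphabet `S` and an arbitrary finite set `F` of letters: every morphically
primitive pattern with terminal letters exactly `F` has an injective substitution which is not
terminal-comprisingly ambiguous if and only if at least two letters lie outside `F`.  The known
sufficient condition (two absent letters) is therefore sharp, also for one absent letter.  If `F`
is nonempty then every pattern over `F` is a prefix of a morphically primitive pattern, longer by a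
linear amount only, for which every substitution that uses a letter of `F` in the image of one of
two new variables is terminal-comprisingly ambiguous; with at most one absent letter this
comprises all injective substitutions.
-/

set_option autoImplicit false

namespace Pool.Agent.Results.MP_00321d_lc.TwoAbsentLetters

open Pool.Agent.Results.MP_00321d_lc.NotAvoidable Pool.Agent.Y846.TC

/-- the classification for one finite set of letters -/
theorem classify (S : Type) (F : Finset S) :
    (∀ α : Pattern S, MorphPrimitive α → (∀ a, Sum.inr a ∈ α ↔ a ∈ F) →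
        ∃ σ : ℕ → List S, InjectiveSub σ ∧ ¬ TCAmbiguous σ α) ↔
      ∃ a b : S, a ∉ F ∧ b ∉ F ∧ a ≠ b := by
  classical
  constructor
  · intro h
    by_contra hcon
    push Not at hcon
    have hP : ∀ a b : S, a ∉ F → b ∉ F → a = b := hcon
    rcases F.eq_empty_or_nonempty with rfl | hF
    · obtain ⟨σ, hσ, -⟩ := h [] (by
        rintro ⟨β, φ, ψ, hl, -⟩
        simp at hl) (by simp)
      obtain ⟨a, ha, -⟩ := inj_two hσ (u := 0) (v := 1) (by norm_num) (fun a => a ∉ (∅ : Finset S))
        (fun a b h1 h2 => hP a b h1 h2)
      simp at ha
    · obtain ⟨γ, u, v, huv, h1, h2, -, h4⟩ := extension F hF [] (by simp)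
      obtain ⟨σ, hσ, hn⟩ := h _ h1 h2
      obtain ⟨a, ha, h5⟩ := inj_two hσ huv (fun a => a ∉ F) (fun a b h1 h2 => hP a b h1 h2)
      exact hn (h4 σ ⟨a, by simpa using ha, h5⟩)
  · rintro ⟨a, b, ha, hb, hab⟩ α - hα
    refine ⟨_, code_inj hab, unamb (F := F) (fun c hc => (hα c).mp hc) ?_⟩
    intro x _ c hc
    simp only [List.mem_append, List.mem_replicate, List.mem_singleton] at hc
    rcases hc with ⟨-, rfl⟩ | rfl
    · exact ha
    · exact hb

/-- **Avoiding terminal-comprising ambiguity: complete classification.**

(1) Over an alphabet `S` every morphically primitive pattern has an injective substitution which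
is not terminal-comprisingly ambiguous if and only if `S` is infinite. In particular the answer to
the question is negative for every finite alphabet.

(2) More precisely, for every finite set `F` of letters: every morphically primitive pattern whose
terminal letters are exactly those in `F` has such a substitution if and only if there are two
different letters outside `F`.

(3) If `F` is nonempty then every pattern `β` with terminal letters in `F` can be continued to a
morphically primitive pattern `β ++ γ` with terminal letters exactly `F`, where the length of `γ`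
is at most `2 |β| + 54 |F|`, such that for two different variables `u`, `v` every substitution
which uses a letter of `F` in the image of `u` or of `v` is terminal-comprisingly ambiguous. If at
most one letter lies outside `F` this holds for all injective substitutions, and if all letters
are in `F`, for all nonerasing substitutions. -/
theorem result (S : Type) :
    ((∀ α : Pattern S, MorphPrimitive α →
        ∃ σ : ℕ → List S, InjectiveSub σ ∧ ¬ TCAmbiguous σ α) ↔ Infinite S) ∧
    ∀ F : Finset S,
      ((∀ α : Pattern S, MorphPrimitive α → (∀ a, Sum.inr a ∈ α ↔ a ∈ F) →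
          ∃ σ : ℕ → List S, InjectiveSub σ ∧ ¬ TCAmbiguous σ α) ↔
        ∃ a b : S, a ∉ F ∧ b ∉ F ∧ a ≠ b) ∧
      (F.Nonempty → ∀ β : Pattern S, (∀ a, Sum.inr a ∈ β → a ∈ F) →
        ∃ (γ : Pattern S) (u v : ℕ), u ≠ v ∧ MorphPrimitive (β ++ γ) ∧
          (∀ a, Sum.inr a ∈ β ++ γ ↔ a ∈ F) ∧ γ.length ≤ 2 * β.length + 54 * F.card ∧
          (∀ σ : ℕ → List S, (∃ a ∈ F, a ∈ σ u ∨ a ∈ σ v) → TCAmbiguous σ (β ++ γ)) ∧
          ((∀ a b : S, a ∉ F → b ∉ F → a = b) →
            ∀ σ : ℕ → List S, InjectiveSub σ → TCAmbiguous σ (β ++ γ)) ∧
          ((∀ a : S, a ∈ F) →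
            ∀ σ : ℕ → List S, (∀ x, σ x ≠ []) → TCAmbiguous σ (β ++ γ))) := by
  classical
  refine ⟨⟨?_, ?_⟩, fun F => ⟨classify S F, ?_⟩⟩
  · intro h
    by_contra hinf
    rw [not_infinite_iff_finite] at hinf
    have := Fintype.ofFinite S
    obtain ⟨a, b, ha, -, -⟩ := (classify S Finset.univ).mp (fun α h1 _ => h α h1)
    exact ha (Finset.mem_univ a)
  · intro hinf α _
    -- the set of the letters of `α`
    let F : Finset S := (α.filterMap (Sum.elim (fun _ => none) some)).toFinset
    have hF : ∀ a, Sum.inr a ∈ α → a ∈ F := by
      intro a ha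
      simp only [F, List.mem_toFinset, List.mem_filterMap]
      exact ⟨Sum.inr a, ha, rfl⟩
    obtain ⟨a, ha⟩ := Infinite.exists_notMem_finset F
    obtain ⟨b, hb⟩ := Infinite.exists_notMem_finset (insert a F)
    rw [Finset.mem_insert, not_or] at hb
    refine ⟨_, code_inj (a := a) (b := b) (fun h => hb.1 h.symm), unamb (F := F) hF ?_⟩
    intro x _ c hc
    simp only [List.mem_append, List.mem_replicate, List.mem_singleton] at hc
    rcases hc with ⟨-, rfl⟩ | rfl
    · exact ha
    · exact hb.2
  · intro hF β hβ
    obtain ⟨γ, u, v, huv, h1, h2, h3, h4⟩ := extension F hF β hβ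
    refine ⟨γ, u, v, huv, h1, h2, h3, h4, ?_, ?_⟩
    · intro hP σ hσ
      obtain ⟨a, ha, h5⟩ := inj_two hσ huv (fun a => a ∉ F) hP
      exact h4 σ ⟨a, by simpa using ha, h5⟩
    · intro hall σ hσ
      obtain ⟨a, ha⟩ := List.exists_mem_of_ne_nil _ (hσ u)
      exact h4 σ ⟨a, hall a, Or.inl ha⟩

end Pool.Agent.Results.MP_00321d_lc.TwoAbsentLetters
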